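import Pool.Agent.Lib.PFire.Main

/-!
# MAXIMUM k-VERTEX PROTECTION is fixed-parameter tractable on planar graphs

See `Pool/Agent/Lib/PFire/README.md` for the proof.
-/

set_option autoImplicit false

namespace Pool.Agent.Results.MP_1d4aa1_lc.PlanarFPT

open Pool.Agent.PFire Pool.Agent.PolyTime Pool.Agent.Lib.CookLevin

/-- **Main theorem.**  There is one Turing machine which, for every finite planar graph `G` with the
vertices `0, …, n - 1` (given by its adjacency lists, without an embedding), every vertex `s` and every
`k`, computes within `2 ^ (c * (k + 1) ^ 2) * p (length of the input)` steps the maximum number of vertices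
saved by a strategy which protects at most `k` vertices, together with such a strategy. -/
theorem result :
    ∃ (M : Turing.TM2ComputableAux Bool Bool) (c : ℕ) (p : Polynomial ℕ),
      ∀ (n : ℕ) (G : SimpleGraph (Fin n)) (s : Fin n) (k : ℕ), IsPlanar G →
        ∃ out : ℕ × List (ℕ × ℕ), Optimal G s k out ∧
          Nonempty (Turing.TM2OutputsInTime M.tm
            (List.map M.inputAlphabet.invFun (inputWord G s k))
            (some (List.map M.outputAlphabet.invFun (outputWord out)))
            (2 ^ (c * (k + 1) ^ 2) * p.eval (inputWord G s k).length)) :=
  firefighter_planar_fpt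

end Pool.Agent.Results.MP_1d4aa1_lc.PlanarFPT
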